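import Mathlib
import Pool.Agent.H.MP_701b78_al.P

namespace Pool.Agent.Results.MP_701b78_al.Two

/-- `f` is locally affine at `x`: affine on an open interval around `x`. -/
def LocAff (f : ℝ → ℝ) (x : ℝ) : Prop :=
  ∃ u v a b : ℝ, u < x ∧ x < v ∧ ∀ t ∈ Set.Ioo u v, f t = a * t + b

/-- PL⁺(ℝ): increasing homeomorphisms of ℝ, locally affine outside a discrete subset. -/
def PLplus : Set (ℝ ≃ₜ ℝ) :=
  {f | StrictMono f ∧ ∃ D : Set ℝ, IsDiscrete D ∧ ∀ x, x ∉ D → LocAff f x}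

/-- `g` is an element of PL⁺(ℝ) that is reversible in PL⁺(ℝ). -/
def Reversible (g : ℝ ≃ₜ ℝ) : Prop := g ∈ PLplus ∧ ∃ h ∈ PLplus, h * g * h⁻¹ = g⁻¹

/-- R^m: the products of `m` reversible elements of PL⁺(ℝ). -/
def R (m : ℕ) : Set (ℝ ≃ₜ ℝ) :=
  {f | ∃ l : List (ℝ ≃ₜ ℝ), l.length = m ∧ (∀ r ∈ l, Reversible r) ∧ l.prod = f}

open Pool.Agent.H.MP_701b78_al in
theorem result : IsLeast {m : ℕ | 1 ≤ m ∧ R m = PLplus} 2 := by
  have hm : ∀ f, f ∈ PLplus ↔ ∃ g, toH g = f := mem_iff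
  constructor
  · refine ⟨by norm_num, Set.Subset.antisymm ?_ ?_⟩
    · rintro _ ⟨l, h1, h2, rfl⟩
      obtain ⟨a, b, rfl⟩ := List.length_eq_two.1 h1
      obtain ⟨a', rfl⟩ := (hm _).1 (h2 a (by simp)).1
      obtain ⟨b', rfl⟩ := (hm _).1 (h2 b (by simp)).1
      exact (hm _).2 ⟨a' * b', by simp⟩
    · intro f hf
      obtain ⟨g, rfl⟩ := (hm f).1 hf
      obtain ⟨r1, r2, h1, h2, e1, e2, rfl⟩ := two_rev g
      refine ⟨[toH r1, toH r2], rfl, ?_, by simp⟩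
      intro r hr
      simp only [List.mem_cons, List.not_mem_nil, or_false] at hr
      rcases hr with rfl | rfl
      · exact ⟨(hm _).2 ⟨_, rfl⟩, toH h1, (hm _).2 ⟨_, rfl⟩, by
          rw [← map_inv, ← map_inv, ← map_mul, ← map_mul, e1]⟩
      · exact ⟨(hm _).2 ⟨_, rfl⟩, toH h2, (hm _).2 ⟨_, rfl⟩, by
          rw [← map_inv, ← map_inv, ← map_mul, ← map_mul, e2]⟩
  · rintro m ⟨h1, h2⟩
    by_contra h
    obtain rfl : m = 1 := by omega
    have : toH (tr 1) ∈ R 1 := by rw [h2]; exact (hm _).2 ⟨_, rfl⟩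
    obtain ⟨l, a1, a2, a3⟩ := this
    obtain ⟨r, rfl⟩ := List.length_eq_one_iff.1 a1
    obtain ⟨-, k, hk, e⟩ := a2 r (by simp)
    obtain ⟨k, rfl⟩ := (hm _).1 hk
    simp only [List.prod_cons, List.prod_nil, mul_one] at a3
    rw [a3, ← map_inv, ← map_inv, ← map_mul, ← map_mul] at e
    have e2 := congrArg (fun φ : ℝ ≃ₜ ℝ => φ (k 0)) e
    simp only [toH_ap, mul_ap, inv_ap, tr_ap, tr_inv_ap] at e2
    have := smono k (show (0 : ℝ) < 0 + 1 by norm_num)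
    linarith

end Pool.Agent.Results.MP_701b78_al.Two
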